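import Pool.Agent.Helper60.AO.Defs
import Pool.Agent.Helper78.AO.H8

/-!
# AO-H9: the choice of all parameters in the high part, with a power saving
-/

open MeasureTheory Real Set Filter Topology

set_option autoImplicit false

namespace Pool.Agent.Helper54.AO

open Pool.Agent.Helper22.AE Pool.Agent.Helper60.AD Pool.Agent.Helper60.AO

theorem flo54 {u x : ℝ} (hx0 : 0 < x) (h2 : 2 ≤ x ^ u) {M : ℕ} (hM : M = ⌊x ^ u⌋₊) (t : ℕ) :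
    2 ≤ M ∧ (M : ℝ) ^ t ≤ x ^ ((t : ℝ) * u) ∧ x ^ ((t : ℝ) * u) ≤ 2 ^ t * (M : ℝ) ^ t := by
  set y : ℝ := x ^ u with hy
  have hy0 : 0 ≤ y := by linarith
  have hM2 : 2 ≤ M := by
    rw [hM]
    exact Nat.le_floor (by exact_mod_cast h2)
  have hMy : (M : ℝ) ≤ y := by
    rw [hM]
    exact Nat.floor_le hy0
  have hyM : y ≤ 2 * M := by
    have h1 : y < M + 1 := by
      rw [hM]
      exact Nat.lt_floor_add_one y
    have h2 : (2 : ℝ) ≤ M := by exact_mod_cast hM2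
    linarith
  have hyt : y ^ t = x ^ ((t : ℝ) * u) := by
    rw [hy, ← Real.rpow_natCast, ← Real.rpow_mul hx0.le]
    congr 1
    ring
  refine ⟨hM2, ?_, ?_⟩
  · rw [← hyt]
    exact pow_le_pow_left₀ (Nat.cast_nonneg _) hMy t
  · rw [← hyt, ← mul_pow]
    exact pow_le_pow_left₀ hy0 hyM t

theorem Dc54 {u x : ℝ} (hx1 : 1 ≤ x) (h2' : 2 ≤ x ^ u) {M : ℕ} (hM : M = ⌊x ^ u⌋₊) {m t : ℕ} (ht : t ≤ m)
    (htu : (t : ℝ) * u ≤ 1) : Dc x M t ≤ 10 * (5 * 2 ^ m + 1) * x ^ (2 - (t : ℝ) * u) := by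
  have hx0 : 0 < x := by linarith
  obtain ⟨hM2, h1, h2⟩ := flo54 hx0 h2' hM t
  have hMt : (0 : ℝ) < (M : ℝ) ^ t := by
    have : (2 : ℝ) ≤ M := by exact_mod_cast hM2
    positivity
  set z : ℝ := x ^ (1 - (t : ℝ) * u) with hz
  have hz1 : 1 ≤ z := Real.one_le_rpow hx1 (by linarith)
  have hz2 : z = x / x ^ ((t : ℝ) * u) := by
    rw [hz, Real.rpow_sub hx0, Real.rpow_one]
  have hxt : 0 < x ^ ((t : ℝ) * u) := Real.rpow_pos_of_pos hx0 _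
  have h3 : x / (M : ℝ) ^ t ≤ 2 ^ m * z := by
    have h4 : x / (M : ℝ) ^ t ≤ 2 ^ t * z := by
      rw [hz2, div_le_iff₀ hMt, ← mul_div_assoc, div_mul_eq_mul_div, le_div_iff₀ hxt]
      calc x * x ^ ((t : ℝ) * u) ≤ x * (2 ^ t * (M : ℝ) ^ t) :=
            mul_le_mul_of_nonneg_left h2 hx0.le
        _ = 2 ^ t * x * (M : ℝ) ^ t := by ring
    refine h4.trans (mul_le_mul_of_nonneg_right ?_ (by linarith))
    exact pow_le_pow_right₀ (by norm_num) ht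
  have h5 : 6 * x * (2 * π / (8 * (M : ℝ) ^ t)) ≤ 5 * (2 ^ m * z) := by
    have h6 : 6 * x * (2 * π / (8 * (M : ℝ) ^ t)) = (3 / 2 * π) * (x / (M : ℝ) ^ t) := by
      field_simp
      ring
    rw [h6]
    have h7 : 3 / 2 * π ≤ 5 := by
      have := Real.pi_lt_d2
      linarith
    exact mul_le_mul h7 h3 (by positivity) (by norm_num)
  unfold Dc
  have h8 : x ^ (2 - (t : ℝ) * u) = x * z := by
    rw [hz, ← Real.rpow_one_add' hx0.le]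
    · congr 1
      ring
    · linarith
  rw [h8]
  have h9 : (0 : ℝ) ≤ 2 ^ m * z := by positivity
  calc 2 * (4 * x + 1) * (6 * x * (2 * π / (8 * (M : ℝ) ^ t)) + 1) ≤
      2 * (5 * x) * (5 * (2 ^ m * z) + z) := by
        refine mul_le_mul (by linarith) (by linarith) ?_ (by positivity)
        have : 0 ≤ 6 * x * (2 * π / (8 * (M : ℝ) ^ t)) := by
          have := Real.pi_pos
          positivity
        linarith
    _ = 10 * (5 * 2 ^ m + 1) * (x * z) := by ring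

theorem fac54 {x c B t y : ℝ} (hx : 1 ≤ x) (hc : 0 ≤ c) (hB : 1 ≤ B) (hy : y ≤ c * (B * x ^ t)) :
    y + 1 ≤ (c + 1) * (B * x ^ (max 0 t)) := by
  have h1 : x ^ t ≤ x ^ (max 0 t) := rpow_le_rpow_of_exponent_le hx (le_max_right _ _)
  have h2 : 1 ≤ x ^ (max 0 t) := one_le_rpow hx (le_max_left _ _)
  have h3 : c * (B * x ^ t) ≤ c * (B * x ^ (max 0 t)) := by gcongr
  have h4 : 1 ≤ B * x ^ (max 0 t) := one_le_mul_of_one_le_of_one_le hB h2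
  calc y + 1 ≤ c * (B * x ^ (max 0 t)) + B * x ^ (max 0 t) := by linarith
    _ = _ := by ring

theorem CJ_nonneg54 (J : ℕ) : 0 ≤ CJ J := by unfold CJ; positivity

theorem CJ_mono54 {J Jm : ℕ} (h : J ≤ Jm) : CJ J ≤ CJ Jm := by
  unfold CJ
  have h1 : (J : ℝ) ≤ Jm := by exact_mod_cast h
  have h2 : (4096 : ℝ) ^ J ≤ 4096 ^ Jm := pow_le_pow_right₀ (by norm_num) h
  gcongr

theorem one_le_Nc54 {J M s : ℕ} {η lam : ℝ} (hη : 0 ≤ η) (hlam : 0 < lam) : 1 ≤ Nc J M s η lam := by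
  unfold Nc
  have hC := CJ_nonneg54 J
  have h1 : (1 : ℝ) ≤ 4 ^ J := one_le_pow₀ (by norm_num)
  have h2 : (1 : ℝ) ≤ ∏ m ∈ Finset.range (2 * J - 1), ((M : ℝ) ^ (s * m) * η * (2 * CJ J * (M : ℝ) ^ (4 * J)) + 1) := by
    have h5 := Finset.prod_le_prod (s := Finset.range (2 * J - 1)) (f := fun _ => (1 : ℝ))
      (g := fun m => ((M : ℝ) ^ (s * m) * η * (2 * CJ J * (M : ℝ) ^ (4 * J)) + 1)) (fun _ _ => zero_le_one) (fun m _ => by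
        have : 0 ≤ (M : ℝ) ^ (s * m) * η * (2 * CJ J * (M : ℝ) ^ (4 * J)) := by positivity
        show 1 ≤ (M : ℝ) ^ (s * m) * η * (2 * CJ J * (M : ℝ) ^ (4 * J)) + 1
        linarith)
    rwa [Finset.prod_const_one] at h5
  have h3 : (1 : ℝ) ≤ (M : ℝ) ^ (s * (2 * J - 1)) * η * (2 * CJ J * (M : ℝ) ^ (4 * J)) / lam + 1 := by
    have : 0 ≤ (M : ℝ) ^ (s * (2 * J - 1)) * η * (2 * CJ J * (M : ℝ) ^ (4 * J)) / lam := by positivity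
    linarith
  exact one_le_mul_of_one_le_of_one_le (one_le_mul_of_one_le_of_one_le h1 h2) h3

/-- the exponent of the number of collisions -/
noncomputable def PJ (J : ℕ) (r d l : ℝ) : ℝ :=
  ∑ m ∈ Finset.range (2 * J - 1), max 0 (m * d - r) + max 0 ((2 * (J : ℝ) - 1) * d - r - l)

theorem Nc54 {J M s : ℕ} (hJ : 1 ≤ J) {x u d r e3 R₀ l : ℝ} (hx : 1 ≤ x) (hR1 : 1 ≤ R₀) (he3 : 0 ≤ e3) (hu : 0 ≤ u)
    (hRx : x ^ r = R₀) (hMu : (M : ℝ) ≤ x ^ u) (hMs : (M : ℝ) ^ s ≤ x ^ d) :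
    Nc J M s (R₀ ^ (-1 + e3)) (x ^ l) ≤ 4 ^ J * (2 * CJ J + 1) ^ (2 * J) * (x ^ (4 * J * u) * R₀ ^ e3) ^ (2 * J) * x ^ PJ J r d l := by
  have hx0 : 0 < x := by linarith
  have hR0 : 0 < R₀ := by linarith
  have hC := CJ_nonneg54 J
  have hM0 : (0 : ℝ) ≤ M := Nat.cast_nonneg _
  set B : ℝ := x ^ (4 * J * u) * R₀ ^ e3 with hB
  have hB1 : 1 ≤ B := one_le_mul_of_one_le_of_one_le (one_le_rpow hx (by positivity)) (one_le_rpow hR1 he3)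
  have hRe : R₀ ^ (-1 + e3) = R₀ ^ e3 * x ^ (-r) := by
    have : x ^ (-r) = R₀ ^ (-1 : ℝ) := by
      rw [← hRx, ← rpow_mul hx0.le]
      congr 1; ring
    rw [this, ← rpow_add hR0]
    congr 1; ring
  have hM4 : (M : ℝ) ^ (4 * J) ≤ x ^ (4 * J * u) := by
    calc (M : ℝ) ^ (4 * J) ≤ (x ^ u) ^ (4 * J) := by gcongr
      _ = x ^ (4 * J * u) := by
        rw [← rpow_natCast, ← rpow_mul hx0.le]
        congr 1; push_cast; ring
  have gen : ∀ m : ℕ, (M : ℝ) ^ (s * m) * R₀ ^ (-1 + e3) * (2 * CJ J * (M : ℝ) ^ (4 * J)) ≤ (2 * CJ J) * (B * x ^ (m * d - r)) := by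
    intro m
    have h1 : (M : ℝ) ^ (s * m) ≤ x ^ (m * d) := by
      calc (M : ℝ) ^ (s * m) = ((M : ℝ) ^ s) ^ m := pow_mul _ _ _
        _ ≤ (x ^ d) ^ m := by gcongr
        _ = x ^ (m * d) := by
          rw [← rpow_natCast, ← rpow_mul hx0.le]
          congr 1; ring
    have h2 : x ^ (m * d - r) = x ^ (m * d) * x ^ (-r) := by
      rw [← rpow_add hx0]
      congr 1
    rw [hRe, h2, hB]
    calc (M : ℝ) ^ (s * m) * (R₀ ^ e3 * x ^ (-r)) * (2 * CJ J * (M : ℝ) ^ (4 * J)) ≤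
        x ^ (m * d) * (R₀ ^ e3 * x ^ (-r)) * (2 * CJ J * x ^ (4 * J * u)) := by gcongr
      _ = _ := by ring
  have hlast : (M : ℝ) ^ (s * (2 * J - 1)) * R₀ ^ (-1 + e3) * (2 * CJ J * (M : ℝ) ^ (4 * J)) / x ^ l ≤
      (2 * CJ J) * (B * x ^ ((2 * (J : ℝ) - 1) * d - r - l)) := by
    have h1 := gen (2 * J - 1)
    have e5 : (((2 * J - 1 : ℕ) : ℝ)) = 2 * (J : ℝ) - 1 := by
      rw [Nat.cast_sub (by omega)]; push_cast; ring
    rw [e5] at h1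
    have h2 : x ^ ((2 * (J : ℝ) - 1) * d - r - l) = x ^ ((2 * (J : ℝ) - 1) * d - r) / x ^ l := rpow_sub hx0 _ _
    rw [h2, div_le_iff₀ (rpow_pos_of_pos hx0 _)]
    refine h1.trans (le_of_eq ?_)
    have : x ^ l ≠ 0 := (rpow_pos_of_pos hx0 _).ne'
    field_simp
  unfold Nc PJ
  have hp : ∏ m ∈ Finset.range (2 * J - 1), ((M : ℝ) ^ (s * m) * R₀ ^ (-1 + e3) * (2 * CJ J * (M : ℝ) ^ (4 * J)) + 1) ≤
      ∏ m ∈ Finset.range (2 * J - 1), ((2 * CJ J + 1) * (B * x ^ (max 0 ((m : ℝ) * d - r)))) := by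
    refine Finset.prod_le_prod (fun m _ => ?_) (fun m _ => fac54 hx (by positivity) hB1 (gen m))
    positivity
  have hp2 : ∏ m ∈ Finset.range (2 * J - 1), ((2 * CJ J + 1) * (B * x ^ (max 0 ((m : ℝ) * d - r)))) =
      ((2 * CJ J + 1) * B) ^ (2 * J - 1) * x ^ (∑ m ∈ Finset.range (2 * J - 1), max 0 ((m : ℝ) * d - r)) := by
    rw [Real.rpow_sum_of_pos hx0]
    have : ∀ m ∈ Finset.range (2 * J - 1), (2 * CJ J + 1) * (B * x ^ (max 0 ((m : ℝ) * d - r))) =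
        ((2 * CJ J + 1) * B) * x ^ (max 0 ((m : ℝ) * d - r)) := fun m _ => by ring
    rw [Finset.prod_congr rfl this, Finset.prod_mul_distrib, Finset.prod_const, Finset.card_range]
  rw [hp2] at hp
  have hl := fac54 hx (by positivity) hB1 hlast
  have hη : 0 < R₀ ^ (-1 + e3) := rpow_pos_of_pos hR0 _
  have hxl : 0 < x ^ l := rpow_pos_of_pos hx0 _
  have hl0 : 0 ≤ (M : ℝ) ^ (s * (2 * J - 1)) * R₀ ^ (-1 + e3) * (2 * CJ J * (M : ℝ) ^ (4 * J)) / x ^ l + 1 := by positivity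
  have hB0 : 0 < B := by linarith
  calc _ ≤ 4 ^ J * (((2 * CJ J + 1) * B) ^ (2 * J - 1) * x ^ (∑ m ∈ Finset.range (2 * J - 1), max 0 ((m : ℝ) * d - r))) *
        ((2 * CJ J + 1) * (B * x ^ (max 0 ((2 * (J : ℝ) - 1) * d - r - l)))) := by
        refine mul_le_mul (mul_le_mul_of_nonneg_left hp (by positivity)) hl hl0 (by positivity)
    _ = 4 ^ J * (((2 * CJ J + 1) * B) ^ (2 * J - 1) * ((2 * CJ J + 1) * B)) *
        (x ^ (∑ m ∈ Finset.range (2 * J - 1), max 0 ((m : ℝ) * d - r)) * x ^ (max 0 ((2 * (J : ℝ) - 1) * d - r - l))) := by ring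
    _ = _ := by
      rw [← pow_succ, ← rpow_add hx0]
      have e6 : 2 * J - 1 + 1 = 2 * J := by omega
      rw [e6, mul_pow]
      ring

/-- the threshold for the radius -/
theorem thr54 {ε e3 u t0 : ℝ} (hε : 0 < ε) (he3 : 0 < e3) (hu : 0 < u) (ht : 0 < t0) (Jm : ℕ) (c C' : ℝ) :
    ∃ R₁ : ℝ, 2 ≤ R₁ ∧ ∀ R₀ : ℝ, R₁ ≤ R₀ → 2 ≤ (R₀ ^ ε) ^ u ∧ C' ≤ (R₀ ^ ε) ^ t0 ∧
      (c * R₀ ^ 2) ^ Jm * exp (-(π / 16) * R₀ ^ (2 * e3)) ≤ 1 := by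
  have h1 : ∀ᶠ R : ℝ in atTop, 2 ≤ (R ^ ε) ^ u :=
    ((tendsto_rpow_atTop hu).comp (tendsto_rpow_atTop hε)).eventually_ge_atTop _
  have h1' : ∀ᶠ R : ℝ in atTop, C' ≤ (R ^ ε) ^ t0 :=
    ((tendsto_rpow_atTop ht).comp (tendsto_rpow_atTop hε)).eventually_ge_atTop _
  have h2 : Tendsto (fun y : ℝ => y ^ ((2 * (Jm : ℝ)) / (2 * e3)) * exp (-(π / 16) * y)) atTop (𝓝 0) :=
    tendsto_rpow_mul_exp_neg_mul_atTop_nhds_zero _ _ (by positivity)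
  have h3 : Tendsto (fun R : ℝ => c ^ Jm * ((R ^ (2 * e3)) ^ ((2 * (Jm : ℝ)) / (2 * e3)) *
      exp (-(π / 16) * R ^ (2 * e3)))) atTop (𝓝 (c ^ Jm * 0)) :=
    (h2.comp (tendsto_rpow_atTop (by positivity : 0 < 2 * e3))).const_mul _
  rw [mul_zero] at h3
  have h4 : ∀ᶠ R : ℝ in atTop, c ^ Jm * ((R ^ (2 * e3)) ^ ((2 * (Jm : ℝ)) / (2 * e3)) *
      exp (-(π / 16) * R ^ (2 * e3))) < 1 := h3.eventually_lt_const one_pos
  obtain ⟨R₁, hR⟩ := eventually_atTop.1 ((h1.and (h1'.and h4)).and (eventually_ge_atTop (1 : ℝ)))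
  refine ⟨max 2 R₁, le_max_left _ _, fun R hRR => ?_⟩
  obtain ⟨⟨ha, ha', hb⟩, hc⟩ := hR R ((le_max_right _ _).trans hRR)
  refine ⟨ha, ha', ?_⟩
  have hR0 : 0 ≤ R := by linarith
  have he : (R ^ (2 * e3)) ^ ((2 * (Jm : ℝ)) / (2 * e3)) = (R ^ 2) ^ Jm := by
    rw [← rpow_mul hR0, mul_div_cancel₀ _ (by positivity : (2 * e3) ≠ 0), ← pow_mul, ← rpow_natCast]
    push_cast
    rfl
  rw [he] at hb
  rw [mul_pow, mul_assoc]
  exact hb.le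

/-- the final product, all exponents together -/
theorem fin54 {m s J Jm M : ℕ} {x u r d g δ e3 ε R₀ l Cg Z : ℝ} (hJ : 1 ≤ J) (hJm : J ≤ Jm) (hsm : s < m) (hx : 1 ≤ x) (hR1 : 1 ≤ R₀)
    (hu : 0 < u) (hε : 0 < ε) (he3 : 0 < e3) (hRx : x ^ r = R₀) (hxR : x ≤ R₀) (hRε : R₀ ^ ε ≤ x) (h2 : 2 ≤ x ^ u)
    (hM : M = ⌊x ^ u⌋₊) (hd : d = ((s : ℝ) + 1) * u) (hd1 : d ≤ 1) (hCg : 0 ≤ Cg) (hl : 0 ≤ l)
    (hthr : (10 * (5 * (2 : ℝ) ^ m + 1) * R₀ ^ 2) ^ Jm * exp (-(π / 16) * R₀ ^ (2 * e3)) ≤ 1)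
    (hZ : Z = J * (1 + d) - (r + 3) - 3 * J * u - 2 * J * g - 2 * δ - g)
    (hZ1 : 8 * J ^ 2 * u + 2 * J * e3 / ε + PJ J r d l + 2 * (u - d) ≤ Z)
    (hZ2 : 3 * l + (8 * J ^ 2 * u + 2 * J * e3 / ε + PJ J r d 0) + 3 * (u - d) ≤ Z) :
    (2 * (8 * (4 * (Jm : ℝ)) ^ m * (2 * M)) * m * 20 / x ^ (3 / 2 - g)) ^ (2 * J) *
      (20 * ((M : ℝ) ^ J * (FQ x M s J * (Cg * (x ^ (1 + 2 * δ) / ((M : ℝ) ^ s) ^ 2) * (R₀ *
        (8 * (M : ℝ) ^ s * (Dc x M (s + 1) ^ J * Nc J M s (R₀ ^ (-1 + e3)) (x ^ l) +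
            Dc x M (s + 1) ^ (2 * J) * exp (-(π / 16) * R₀ ^ 2 * (R₀ ^ (-1 + e3)) ^ 2)) +
          5 * (4 * x ^ l + 1) ^ 3 * (Dc x M (s + 1) ^ J * Nc J M s (R₀ ^ (-1 + e3)) 1 +
            Dc x M (s + 1) ^ (2 * J) * exp (-(π / 16) * R₀ ^ 2 * (R₀ ^ (-1 + e3)) ^ 2)))))))) ≤
      ((2 * (8 * (4 * (Jm : ℝ)) ^ m * 2) * m * 20 + 1) ^ (2 * Jm) * (20 * (54 * (Jm : ℝ) ^ 2) * Cg *
        (10 * (5 * (2 : ℝ) ^ m + 1)) ^ Jm * (4 ^ Jm * (2 * CJ Jm + 1) ^ (2 * Jm)) * (16 * 4 ^ m + 1250 * 8 ^ m))) * x ^ (-g) := by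
  obtain ⟨a, ha⟩ : ∃ a : ℝ, a = 2 * (8 * (4 * (Jm : ℝ)) ^ m * 2) * m * 20 + 1 := ⟨_, rfl⟩
  obtain ⟨c₁, hc₁⟩ : ∃ c : ℝ, c = 10 * (5 * (2 : ℝ) ^ m + 1) := ⟨_, rfl⟩
  rw [← hc₁] at hthr
  rw [← ha, ← hc₁]
  have ha1 : 1 ≤ a := by
    rw [ha]
    have : (0 : ℝ) ≤ 2 * (8 * (4 * (Jm : ℝ)) ^ m * 2) * m * 20 := by positivity
    linarith
  have hc₁1 : 1 ≤ c₁ := by
    have : (0 : ℝ) ≤ (2 : ℝ) ^ m := by positivity
    rw [hc₁]; linarith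
  have hx0 : 0 < x := by linarith
  have hR0 : 0 < R₀ := by linarith
  have hJr : (1 : ℝ) ≤ J := by exact_mod_cast hJ
  have hJJ : (J : ℝ) ≤ Jm := by exact_mod_cast hJm
  have hJm1 : (1 : ℝ) ≤ Jm := by linarith
  have hsd : (s : ℝ) * u = d - u := by rw [hd]; ring
  have hd0 : 0 ≤ d := by rw [hd]; positivity
  obtain ⟨M2, M1, -⟩ := flo54 hx0 h2 hM 1
  rw [pow_one, Nat.cast_one, one_mul] at M1
  have hM0 : (0 : ℝ) ≤ M := Nat.cast_nonneg _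
  have hMp : (0 : ℝ) < M := by exact_mod_cast (by omega : 0 < M)
  have hMsp : (0 : ℝ) < (M : ℝ) ^ s := by positivity
  obtain ⟨-, Ms, Ms2⟩ := flo54 hx0 h2 hM s
  rw [hsd] at Ms Ms2
  have Msx : (M : ℝ) ^ s ≤ x := by
    refine Ms.trans ?_
    calc x ^ (d - u) ≤ x ^ (1 : ℝ) := rpow_le_rpow_of_exponent_le hx (by linarith)
      _ = x := rpow_one x
  have Msd : (M : ℝ) ^ s ≤ x ^ d := Ms.trans (rpow_le_rpow_of_exponent_le hx (by linarith))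
  -- the inverse of `M ^ s`
  obtain ⟨v, hv⟩ : ∃ v : ℝ, v = ((M : ℝ) ^ s)⁻¹ := ⟨_, rfl⟩
  have hv0 : 0 < v := by rw [hv]; positivity
  have hvle : v ≤ 2 ^ m * x ^ (u - d) := by
    have h1 : x ^ (u - d) = (x ^ (d - u))⁻¹ := by
      rw [← rpow_neg hx0.le]
      congr 1; ring
    have hxp : 0 < x ^ (d - u) := rpow_pos_of_pos hx0 _
    rw [hv, h1, inv_le_iff_one_le_mul₀ hMsp]
    have h3 : x ^ (d - u) ≤ 2 ^ m * (M : ℝ) ^ s := by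
      refine Ms2.trans (mul_le_mul_of_nonneg_right ?_ hMsp.le)
      exact pow_le_pow_right₀ (by norm_num) hsm.le
    have h4 : 2 ^ m * (x ^ (d - u))⁻¹ * (M : ℝ) ^ s = (2 ^ m * (M : ℝ) ^ s) / x ^ (d - u) := by
      field_simp
    rw [h4, le_div_iff₀ hxp, one_mul]
    exact h3
  -- the arc count
  have D1 : Dc x M (s + 1) ≤ c₁ * x ^ (2 - d) := by
    have h := Dc54 (m := m) (t := s + 1) hx h2 hM (by omega) (by push_cast; rw [← hd]; exact hd1)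
    push_cast at h
    rw [← hd] at h
    rw [hc₁]
    exact h
  have D0 : 1 ≤ Dc x M (s + 1) := one_le_Dc hx hM0 _
  have D2 : Dc x M (s + 1) ≤ c₁ * R₀ ^ 2 := by
    refine D1.trans ?_
    have : x ^ (2 - d) ≤ x ^ (2 : ℝ) := rpow_le_rpow_of_exponent_le hx (by linarith)
    have h' : x ^ (2 : ℝ) = x ^ 2 := by exact_mod_cast rpow_natCast x 2
    rw [h'] at this
    calc c₁ * x ^ (2 - d) ≤ c₁ * x ^ 2 := by gcongr
      _ ≤ c₁ * R₀ ^ 2 := by gcongr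
  have DJ : Dc x M (s + 1) ^ J ≤ c₁ ^ Jm * x ^ ((J : ℝ) * (2 - d)) := by
    calc Dc x M (s + 1) ^ J ≤ (c₁ * x ^ (2 - d)) ^ J := by gcongr
      _ = c₁ ^ J * x ^ ((J : ℝ) * (2 - d)) := by
          rw [mul_pow, ← rpow_natCast (x ^ (2 - d)) J, ← rpow_mul hx0.le, mul_comm (2 - d)]
      _ ≤ c₁ ^ Jm * x ^ ((J : ℝ) * (2 - d)) := by
          gcongr
  have hexp : R₀ ^ 2 * (R₀ ^ (-1 + e3)) ^ 2 = R₀ ^ (2 * e3) := by
    rw [← mul_pow, ← rpow_natCast, ← rpow_one_add' hR0.le (by linarith), ← rpow_mul hR0.le]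
    congr 1; push_cast; ring
  have hexp2 : -(π / 16) * R₀ ^ 2 * (R₀ ^ (-1 + e3)) ^ 2 = -(π / 16) * R₀ ^ (2 * e3) := by
    rw [← hexp]; ring
  have DE : Dc x M (s + 1) ^ J * exp (-(π / 16) * R₀ ^ (2 * e3)) ≤ 1 := by
    refine le_trans ?_ hthr
    gcongr
    calc Dc x M (s + 1) ^ J ≤ (c₁ * R₀ ^ 2) ^ J := by gcongr
      _ ≤ (c₁ * R₀ ^ 2) ^ Jm := by
          exact pow_le_pow_right₀ (one_le_mul_of_one_le_of_one_le hc₁1 (one_le_pow₀ hR1)) hJm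
  rw [hexp2]
  obtain ⟨E, hE⟩ : ∃ E : ℝ, E = exp (-(π / 16) * R₀ ^ (2 * e3)) := ⟨_, rfl⟩
  have hE0 : 0 ≤ E := by rw [hE]; positivity
  rw [← hE] at DE ⊢
  obtain ⟨D, hD⟩ : ∃ D : ℝ, D = Dc x M (s + 1) := ⟨_, rfl⟩
  rw [← hD] at D0 DJ DE ⊢
  have hD00 : 0 ≤ D := by linarith
  -- the numbers of collisions
  have hη : 0 < R₀ ^ (-1 + e3) := rpow_pos_of_pos hR0 _
  have hxl : 0 < x ^ l := rpow_pos_of_pos hx0 _
  have hxl1 : 1 ≤ x ^ l := one_le_rpow hx hl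
  have N1 := Nc54 (l := l) hJ hx hR1 he3.le hu.le hRx M1 Msd
  have N2 := Nc54 (l := 0) hJ hx hR1 he3.le hu.le hRx M1 Msd
  rw [rpow_zero] at N2
  have L1 := one_le_Nc54 (J := J) (M := M) (s := s) hη.le hxl
  have L2 := one_le_Nc54 (J := J) (M := M) (s := s) hη.le one_pos
  obtain ⟨A, hA⟩ : ∃ A : ℝ, A = Nc J M s (R₀ ^ (-1 + e3)) (x ^ l) := ⟨_, rfl⟩
  obtain ⟨B, hB⟩ : ∃ B : ℝ, B = Nc J M s (R₀ ^ (-1 + e3)) 1 := ⟨_, rfl⟩
  rw [← hA] at N1 L1 ⊢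
  rw [← hB] at N2 L2 ⊢
  obtain ⟨q, hq⟩ : ∃ q : ℝ, q = 8 * J ^ 2 * u + 2 * J * e3 / ε := ⟨_, rfl⟩
  rw [← hq] at hZ1 hZ2
  obtain ⟨cN, hcN⟩ : ∃ c : ℝ, c = 4 ^ Jm * (2 * CJ Jm + 1) ^ (2 * Jm) := ⟨_, rfl⟩
  rw [← hcN]
  have hcN0 : 0 < cN := by
    have := CJ_nonneg54 Jm
    rw [hcN]; positivity
  have hconst : ∀ P : ℝ, 4 ^ J * (2 * CJ J + 1) ^ (2 * J) * (x ^ (4 * J * u) * R₀ ^ e3) ^ (2 * J) * x ^ P ≤ cN * x ^ (q + P) := by
    intro P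
    have hC0 := CJ_nonneg54 J
    have hCm := CJ_mono54 hJm
    have h1 : (4 : ℝ) ^ J * (2 * CJ J + 1) ^ (2 * J) ≤ cN := by
      rw [hcN]
      refine mul_le_mul (pow_le_pow_right₀ (by norm_num) hJm) ?_ (by positivity) (by positivity)
      calc (2 * CJ J + 1) ^ (2 * J) ≤ (2 * CJ Jm + 1) ^ (2 * J) := by gcongr
        _ ≤ (2 * CJ Jm + 1) ^ (2 * Jm) := pow_le_pow_right₀ (by linarith) (by omega)
    have h3 : (x ^ (4 * J * u) * R₀ ^ e3) ^ (2 * J) ≤ x ^ q := by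
      have h4 : R₀ ^ e3 ≤ x ^ (e3 / ε) := by
        calc R₀ ^ e3 = (R₀ ^ ε) ^ (e3 / ε) := by
              rw [← rpow_mul hR0.le, mul_div_cancel₀ _ hε.ne']
          _ ≤ _ := by gcongr
      calc (x ^ (4 * J * u) * R₀ ^ e3) ^ (2 * J) ≤ (x ^ (4 * J * u) * x ^ (e3 / ε)) ^ (2 * J) := by gcongr
        _ = x ^ q := by
          rw [← rpow_add hx0, ← rpow_natCast, ← rpow_mul hx0.le, hq]
          congr 1
          push_cast
          ring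
    rw [rpow_add hx0, ← mul_assoc]
    gcongr
  have N1' : A ≤ cN * x ^ (q + PJ J r d l) := N1.trans (hconst _)
  have N2' : B ≤ cN * x ^ (q + PJ J r d 0) := N2.trans (hconst _)
  -- the bracket
  have hW : 8 * (M : ℝ) ^ s * (D ^ J * A + D ^ (2 * J) * E) + 5 * (4 * x ^ l + 1) ^ 3 * (D ^ J * B + D ^ (2 * J) * E) ≤
      D ^ J * (16 * (M : ℝ) ^ s * A + 1250 * (x ^ l) ^ 3 * B) := by
    have hDJ0 : 0 < D ^ J := by positivity
    have h1 : D ^ (2 * J) * E ≤ D ^ J := by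
      rw [two_mul J, pow_add, mul_assoc]
      calc D ^ J * (D ^ J * E) ≤ D ^ J * 1 := by gcongr
        _ = D ^ J := mul_one _
    have h3 : D ^ J ≤ D ^ J * A := le_mul_of_one_le_right hDJ0.le L1
    have h4 : D ^ J ≤ D ^ J * B := le_mul_of_one_le_right hDJ0.le L2
    have h5 : (4 * x ^ l + 1) ^ 3 ≤ (5 * x ^ l) ^ 3 := by gcongr; linarith
    calc 8 * (M : ℝ) ^ s * (D ^ J * A + D ^ (2 * J) * E) + 5 * (4 * x ^ l + 1) ^ 3 * (D ^ J * B + D ^ (2 * J) * E) ≤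
        8 * (M : ℝ) ^ s * (D ^ J * A + D ^ J * A) + 5 * (5 * x ^ l) ^ 3 * (D ^ J * B + D ^ J * B) := by
          have h6 : D ^ J * A + D ^ (2 * J) * E ≤ D ^ J * A + D ^ J * A := by linarith
          have h7 : D ^ J * B + D ^ (2 * J) * E ≤ D ^ J * B + D ^ J * B := by linarith
          have h8 : 0 ≤ D ^ J * B + D ^ (2 * J) * E := by positivity
          refine add_le_add (mul_le_mul_of_nonneg_left h6 (by positivity)) ?_
          exact mul_le_mul (mul_le_mul_of_nonneg_left h5 (by norm_num)) h7 h8 (by positivity)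
      _ = _ := by ring
  -- first factor
  have F1 : (2 * (8 * (4 * (Jm : ℝ)) ^ m * (2 * M)) * m * 20 / x ^ (3 / 2 - g)) ^ (2 * J) ≤
      a ^ (2 * Jm) * x ^ (2 * (J : ℝ) * u - 3 * J + 2 * J * g) := by
    have h1 : 2 * (8 * (4 * (Jm : ℝ)) ^ m * (2 * M)) * m * 20 / x ^ (3 / 2 - g) ≤
        a * x ^ (u - (3 / 2 - g)) := by
      rw [rpow_sub hx0 u, ← mul_div_assoc]
      refine div_le_div_of_nonneg_right ?_ (rpow_pos_of_pos hx0 _).le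
      calc 2 * (8 * (4 * (Jm : ℝ)) ^ m * (2 * M)) * m * 20 =
          (2 * (8 * (4 * (Jm : ℝ)) ^ m * 2) * m * 20) * M := by ring
        _ ≤ a * x ^ u := by
            gcongr
            rw [ha]; linarith
    have hxg : 0 < x ^ (3 / 2 - g) := rpow_pos_of_pos hx0 _
    calc _ ≤ (a * x ^ (u - (3 / 2 - g))) ^ (2 * J) := by gcongr
      _ = a ^ (2 * J) * x ^ (2 * (J : ℝ) * u - 3 * J + 2 * J * g) := by
          rw [mul_pow, ← rpow_natCast (x ^ (u - (3 / 2 - g))), ← rpow_mul hx0.le]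
          congr 2; push_cast; ring
      _ ≤ _ := by
          gcongr
  have MJ : (M : ℝ) ^ J ≤ x ^ ((J : ℝ) * u) := by
    calc (M : ℝ) ^ J ≤ (x ^ u) ^ J := by gcongr
      _ = _ := by rw [← rpow_natCast, ← rpow_mul hx0.le, mul_comm]
  have hF : FQ x M s J ≤ 54 * (Jm : ℝ) ^ 2 * (x ^ (2 : ℝ) * v) := by
    unfold FQ
    have hxx : x ^ (2 : ℝ) = x ^ 2 := by exact_mod_cast rpow_natCast x 2
    have h1 : 8 * (J : ℝ) * x + 1 ≤ 9 * Jm * x := by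
      have : (1 : ℝ) ≤ J * x := one_le_mul_of_one_le_of_one_le hJr hx
      calc 8 * (J : ℝ) * x + 1 ≤ 9 * (J * x) := by linarith
        _ ≤ 9 * (Jm * x) := by gcongr
        _ = _ := by ring
    have h3 : 5 * (J : ℝ) * x / (M : ℝ) ^ s + 1 ≤ 6 * Jm * (x * v) := by
      have h4 : x / (M : ℝ) ^ s = x * v := by rw [hv]; rfl
      have h5 : (1 : ℝ) ≤ x * v := by
        rw [← h4, le_div_iff₀ hMsp, one_mul]
        exact Msx
      have h6 : 5 * (J : ℝ) * x / (M : ℝ) ^ s = 5 * J * (x * v) := by rw [← h4]; ring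
      rw [h6]
      have h7 : (1 : ℝ) ≤ J * (x * v) := one_le_mul_of_one_le_of_one_le hJr h5
      calc 5 * (J : ℝ) * (x * v) + 1 ≤ 6 * (J * (x * v)) := by linarith
        _ ≤ 6 * (Jm * (x * v)) := by gcongr
        _ = _ := by ring
    calc (8 * J * x + 1) * (5 * J * x / M ^ s + 1) ≤ (9 * Jm * x) * (6 * Jm * (x * v)) :=
          mul_le_mul h1 h3 (by positivity) (by positivity)
      _ = _ := by rw [hxx]; ring
  have hF0 : 0 ≤ FQ x M s J := by unfold FQ; positivity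
  have hκ : x ^ (1 + 2 * δ) / ((M : ℝ) ^ s) ^ 2 = x ^ (1 + 2 * δ) * v ^ 2 := by
    rw [hv, inv_pow, div_eq_mul_inv]
  rw [hκ]
  have hx12 : 0 < x ^ (1 + 2 * δ) := rpow_pos_of_pos hx0 _
  have hxJ : 0 < x ^ ((J : ℝ) * (2 - d)) := rpow_pos_of_pos hx0 _
  -- the bracket with the powers of `v`
  have hV : v ^ 3 * (16 * (M : ℝ) ^ s * A + 1250 * (x ^ l) ^ 3 * B) ≤ cN * (16 * 4 ^ m + 1250 * 8 ^ m) * x ^ Z := by
    have hMv : v * (M : ℝ) ^ s = 1 := by rw [hv]; exact inv_mul_cancel₀ hMsp.ne'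
    have h1 : v ^ 2 ≤ 4 ^ m * x ^ (2 * (u - d)) := by
      calc v ^ 2 ≤ (2 ^ m * x ^ (u - d)) ^ 2 := by gcongr
        _ = 4 ^ m * x ^ (2 * (u - d)) := by
          rw [mul_pow, ← pow_mul, mul_comm m 2, pow_mul, ← rpow_natCast (x ^ (u - d)) 2, ← rpow_mul hx0.le]
          norm_num
          congr 1; ring
    have h3 : v ^ 3 ≤ 8 ^ m * x ^ (3 * (u - d)) := by
      calc v ^ 3 ≤ (2 ^ m * x ^ (u - d)) ^ 3 := by gcongr
        _ = 8 ^ m * x ^ (3 * (u - d)) := by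
          rw [mul_pow, ← pow_mul, mul_comm m 3, pow_mul, ← rpow_natCast (x ^ (u - d)) 3, ← rpow_mul hx0.le]
          norm_num
          congr 1; ring
    have h4 : (x ^ l) ^ 3 = x ^ (3 * l) := by
      rw [← rpow_natCast, ← rpow_mul hx0.le]
      congr 1; push_cast; ring
    have h5 : v ^ 2 * A ≤ 4 ^ m * cN * x ^ Z := by
      calc v ^ 2 * A ≤ (4 ^ m * x ^ (2 * (u - d))) * (cN * x ^ (q + PJ J r d l)) := by gcongr
        _ = 4 ^ m * cN * x ^ (2 * (u - d) + (q + PJ J r d l)) := by rw [rpow_add hx0 (2 * (u - d))]; ring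
        _ ≤ 4 ^ m * cN * x ^ Z := by
          refine mul_le_mul_of_nonneg_left (rpow_le_rpow_of_exponent_le hx ?_) (by positivity)
          linarith
    have h6 : v ^ 3 * ((x ^ l) ^ 3 * B) ≤ 8 ^ m * cN * x ^ Z := by
      rw [h4]
      calc v ^ 3 * (x ^ (3 * l) * B) ≤ (8 ^ m * x ^ (3 * (u - d))) * (x ^ (3 * l) * (cN * x ^ (q + PJ J r d 0))) := by gcongr
        _ = 8 ^ m * cN * x ^ (3 * (u - d) + 3 * l + (q + PJ J r d 0)) := by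
          rw [rpow_add hx0 (3 * (u - d) + 3 * l), rpow_add hx0 (3 * (u - d))]; ring
        _ ≤ 8 ^ m * cN * x ^ Z := by
          refine mul_le_mul_of_nonneg_left (rpow_le_rpow_of_exponent_le hx ?_) (by positivity)
          linarith
    calc v ^ 3 * (16 * (M : ℝ) ^ s * A + 1250 * (x ^ l) ^ 3 * B) =
        16 * (v * (M : ℝ) ^ s) * (v ^ 2 * A) + 1250 * (v ^ 3 * ((x ^ l) ^ 3 * B)) := by ring
      _ ≤ 16 * 1 * (4 ^ m * cN * x ^ Z) + 1250 * (8 ^ m * cN * x ^ Z) := by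
          rw [hMv]
          gcongr
      _ = _ := by ring
  have hA0 : 0 < A := by linarith
  have hB0 : 0 < B := by linarith
  have hxZ : 0 < x ^ Z := rpow_pos_of_pos hx0 _
  have hJJp : 0 < x ^ ((J : ℝ) * u) := rpow_pos_of_pos hx0 _
  have hx2p : 0 < x ^ (2 : ℝ) := rpow_pos_of_pos hx0 _
  have step : FQ x M s J * (Cg * (x ^ (1 + 2 * δ) * v ^ 2) * (R₀ *
      (8 * (M : ℝ) ^ s * (D ^ J * A + D ^ (2 * J) * E) + 5 * (4 * x ^ l + 1) ^ 3 * (D ^ J * B + D ^ (2 * J) * E)))) ≤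
      54 * (Jm : ℝ) ^ 2 * Cg * c₁ ^ Jm * (cN * (16 * 4 ^ m + 1250 * 8 ^ m)) *
        (x ^ (2 : ℝ) * x ^ (1 + 2 * δ) * R₀ * x ^ ((J : ℝ) * (2 - d)) * x ^ Z) := by
    have hW0 : 0 ≤ 8 * (M : ℝ) ^ s * (D ^ J * A + D ^ (2 * J) * E) + 5 * (4 * x ^ l + 1) ^ 3 * (D ^ J * B + D ^ (2 * J) * E) := by
      positivity
    calc _ ≤ (54 * (Jm : ℝ) ^ 2 * (x ^ (2 : ℝ) * v)) * (Cg * (x ^ (1 + 2 * δ) * v ^ 2) * (R₀ *
          (D ^ J * (16 * (M : ℝ) ^ s * A + 1250 * (x ^ l) ^ 3 * B)))) := by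
          refine mul_le_mul hF ?_ (by positivity) (by positivity)
          refine mul_le_mul_of_nonneg_left (mul_le_mul_of_nonneg_left hW hR0.le) (by positivity)
      _ = 54 * (Jm : ℝ) ^ 2 * Cg * (x ^ (2 : ℝ) * x ^ (1 + 2 * δ) * R₀) * D ^ J *
          (v ^ 3 * (16 * (M : ℝ) ^ s * A + 1250 * (x ^ l) ^ 3 * B)) := by ring
      _ ≤ 54 * (Jm : ℝ) ^ 2 * Cg * (x ^ (2 : ℝ) * x ^ (1 + 2 * δ) * R₀) * (c₁ ^ Jm * x ^ ((J : ℝ) * (2 - d))) *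
          (cN * (16 * 4 ^ m + 1250 * 8 ^ m) * x ^ Z) := by
          refine mul_le_mul (mul_le_mul_of_nonneg_left DJ (by positivity)) hV (by positivity) (by positivity)
      _ = _ := by ring
  have hstep0 : 0 ≤ FQ x M s J * (Cg * (x ^ (1 + 2 * δ) * v ^ 2) * (R₀ *
      (8 * (M : ℝ) ^ s * (D ^ J * A + D ^ (2 * J) * E) + 5 * (4 * x ^ l + 1) ^ 3 * (D ^ J * B + D ^ (2 * J) * E)))) := by
    positivity
  have hT0 : 0 ≤ 2 * (8 * (4 * (Jm : ℝ)) ^ m * (2 * M)) * m * 20 / x ^ (3 / 2 - g) := by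
    have := rpow_pos_of_pos hx0 (3 / 2 - g)
    positivity
  have hxF : 0 < x ^ (2 * (J : ℝ) * u - 3 * J + 2 * J * g) := rpow_pos_of_pos hx0 _
  calc (2 * (8 * (4 * (Jm : ℝ)) ^ m * (2 * M)) * m * 20 / x ^ (3 / 2 - g)) ^ (2 * J) *
      (20 * ((M : ℝ) ^ J * (FQ x M s J * (Cg * (x ^ (1 + 2 * δ) * v ^ 2) * (R₀ *
      (8 * (M : ℝ) ^ s * (D ^ J * A + D ^ (2 * J) * E) + 5 * (4 * x ^ l + 1) ^ 3 * (D ^ J * B + D ^ (2 * J) * E)))))))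
      ≤ (a ^ (2 * Jm) * x ^ (2 * (J : ℝ) * u - 3 * J + 2 * J * g)) * (20 * (x ^ ((J : ℝ) * u) *
        (54 * (Jm : ℝ) ^ 2 * Cg * c₁ ^ Jm * (cN * (16 * 4 ^ m + 1250 * 8 ^ m)) *
        (x ^ (2 : ℝ) * x ^ (1 + 2 * δ) * R₀ * x ^ ((J : ℝ) * (2 - d)) * x ^ Z)))) := by
        refine mul_le_mul F1 ?_ (by positivity) (by positivity)
        refine mul_le_mul_of_nonneg_left (mul_le_mul MJ step hstep0 hJJp.le) (by norm_num)
    _ = (a ^ (2 * Jm) * (20 * (54 * (Jm : ℝ) ^ 2) * Cg * c₁ ^ Jm * cN * (16 * 4 ^ m + 1250 * 8 ^ m))) *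
        (x ^ (2 * (J : ℝ) * u - 3 * J + 2 * J * g) * x ^ ((J : ℝ) * u) * x ^ (2 : ℝ) * x ^ (1 + 2 * δ) * x ^ r *
          x ^ ((J : ℝ) * (2 - d)) * x ^ Z) := by
        rw [hRx]
        ring
    _ = _ := by
        congr 1
        rw [← rpow_add hx0, ← rpow_add hx0, ← rpow_add hx0, ← rpow_add hx0, ← rpow_add hx0, ← rpow_add hx0]
        congr 1
        rw [hZ]
        ring

theorem PJ_zero54 {J : ℕ} (hJ : 1 ≤ J) (r d : ℝ) : PJ J r d 0 = ∑ m ∈ Finset.range (2 * J), max 0 ((m : ℝ) * d - r) := by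
  unfold PJ
  obtain ⟨j, rfl⟩ : ∃ j, J = j + 1 := ⟨J - 1, by omega⟩
  have e1 : 2 * (j + 1) - 1 = 2 * j + 1 := by omega
  have e2 : 2 * (j + 1) = (2 * j + 1) + 1 := by ring
  rw [e1, e2, Finset.sum_range_succ _ (2 * j + 1)]
  push_cast
  congr 2
  ring

theorem PJ_gain54 {J : ℕ} (r d l : ℝ) : PJ J r d l =
    PJ J r d 0 - (max 0 ((2 * (J : ℝ) - 1) * d - r) - max 0 ((2 * (J : ℝ) - 1) * d - r - l)) := by
  unfold PJ
  rw [sub_zero]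
  ring

theorem exponents3 {ε : ℝ} (hε : 0 < ε) (hε1 : ε ≤ 1) :
    ∃ (m : ℕ) (u δ g e2 e3 : ℝ), 1 ≤ m ∧ 0 < u ∧ 0 < δ ∧ δ ≤ 1 / 100 ∧ m * u = 1 / 2 + δ ∧ 0 < g ∧ g ≤ 1 / 100 ∧ 0 < e2 ∧ e2 ≤ 1 / 100 ∧ 0 < e3 ∧
      ∀ Cg : ℝ, 0 ≤ Cg → ∃ C R₁ : ℝ, 0 < C ∧ 1 ≤ R₁ ∧
      ∀ R₀ : ℝ, R₁ ≤ R₀ → ∀ x : ℝ, R₀ ^ ε ≤ x → x ≤ R₀ ^ (1 / 2 + e2) →
      ∀ M : ℕ, M = ⌊x ^ u⌋₊ → ∀ Jm : ℕ, Jm = ⌊1 / ε⌋₊ + 6 →
        1 ≤ M ∧ (M : ℝ) ^ m ≤ x ^ (1 / 2 + δ) ∧ 2 * (8 * (4 * (Jm : ℝ)) ^ m * Dc x M m) * 20 ≤ x ^ (3 / 2 - g) ∧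
        ∀ s < m, ∃ J : ℕ, 3 ≤ J ∧ J ≤ Jm ∧ ∃ lm : ℝ, 1 ≤ lm ∧
          (2 * (8 * (4 * (Jm : ℝ)) ^ m * (2 * M)) * m * 20 / x ^ (3 / 2 - g)) ^ (2 * J) *
            (20 * ((M : ℝ) ^ J * (FQ x M s J * (Cg * (x ^ (1 + 2 * δ) / ((M : ℝ) ^ s) ^ 2) * (R₀ *
              (8 * (M : ℝ) ^ s * (Dc x M (s + 1) ^ J * Nc J M s (R₀ ^ (-1 + e3)) lm +
                  Dc x M (s + 1) ^ (2 * J) * exp (-(π / 16) * R₀ ^ 2 * (R₀ ^ (-1 + e3)) ^ 2)) +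
                5 * (4 * lm + 1) ^ 3 * (Dc x M (s + 1) ^ J * Nc J M s (R₀ ^ (-1 + e3)) 1 +
                  Dc x M (s + 1) ^ (2 * J) * exp (-(π / 16) * R₀ ^ 2 * (R₀ ^ (-1 + e3)) ^ 2)))))))) ≤
            C * x ^ (-g) := by
  obtain ⟨K, hK⟩ : ∃ K : ℕ, K = ⌊1 / ε⌋₊ + 6 := ⟨_, rfl⟩
  obtain ⟨m, hm⟩ : ∃ m : ℕ, m = 1400000 * K ^ 2 := ⟨_, rfl⟩
  have hK6 : (6 : ℝ) ≤ K := by
    have : 6 ≤ K := by omega
    exact_mod_cast this
  have hK1 : 1 ≤ K := by omega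
  have hm1 : 1 ≤ m := by
    have : 1 ≤ K ^ 2 := Nat.one_le_pow _ _ hK1
    omega
  have hmR : (m : ℝ) = 1400000 * (K : ℝ) ^ 2 := by rw [hm]; push_cast; rfl
  have hm0 : (0 : ℝ) < m := by exact_mod_cast hm1
  obtain ⟨δ, hδ⟩ : ∃ δ : ℝ, δ = 1 / 100000 := ⟨_, rfl⟩
  obtain ⟨u, hu⟩ : ∃ u : ℝ, u = (1 / 2 + δ) / m := ⟨_, rfl⟩
  obtain ⟨g, hg⟩ : ∃ g : ℝ, g = 1 / (200000 * K) := ⟨_, rfl⟩
  obtain ⟨e3, he3⟩ : ∃ e : ℝ, e = ε / (200000 * K) := ⟨_, rfl⟩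
  have hK0 : (0 : ℝ) < K := by linarith
  have hu0 : 0 < u := by rw [hu, hδ]; positivity
  have hg0 : 0 < g := by rw [hg]; positivity
  have he30 : 0 < e3 := by rw [he3]; positivity
  have hgK : K * g = 1 / 200000 := by rw [hg]; field_simp
  have hg1 : g ≤ 1 / 1200000 := by
    have : 6 * g ≤ K * g := mul_le_mul_of_nonneg_right hK6 hg0.le
    rw [hgK] at this
    linarith
  have heK : K * (e3 / ε) = 1 / 200000 := by rw [he3]; field_simp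
  have hmu : m * u = 1 / 2 + δ := by rw [hu]; field_simp
  have huK : 1400000 * (K : ℝ) ^ 2 * u = 1 / 2 + δ := by rw [← hmR]; exact hmu
  have huK1 : (K : ℝ) ^ 2 * u ≤ 1 / 1400000 := by
    rw [hδ] at huK
    linarith
  refine ⟨m, u, δ, g, 1 / 400000, e3, hm1, hu0, by rw [hδ]; norm_num, by rw [hδ]; norm_num, hmu, hg0, by linarith, by norm_num,
    by norm_num, he30, fun Cg hCg => ?_⟩
  obtain ⟨c₁, hc₁⟩ : ∃ c : ℝ, c = 10 * (5 * (2 : ℝ) ^ m + 1) := ⟨_, rfl⟩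
  obtain ⟨C', hC'⟩ : ∃ c : ℝ, c = 2 * (8 * (4 * (K : ℝ)) ^ m * c₁) * 20 := ⟨_, rfl⟩
  obtain ⟨Ct, hCt⟩ : ∃ c : ℝ, c = (2 * (8 * (4 * (K : ℝ)) ^ m * 2) * m * 20 + 1) ^ (2 * K) * (20 * (54 * (K : ℝ) ^ 2) * Cg *
        (10 * (5 * (2 : ℝ) ^ m + 1)) ^ K * (4 ^ K * (2 * CJ K + 1) ^ (2 * K)) * (16 * 4 ^ m + 1250 * 8 ^ m)) := ⟨_, rfl⟩
  have hCt0 : 0 ≤ Ct := by
    have := CJ_nonneg54 K
    rw [hCt]; positivity
  have hδg : 0 < δ - g := by rw [hδ]; linarith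
  obtain ⟨R₁, hR₁, hthr⟩ := thr54 (ε := ε) (e3 := e3) (u := u) (t0 := δ - g) hε he30 hu0 hδg K c₁ C'
  refine ⟨Ct + 1, R₁, by linarith, by linarith, ?_⟩
  intro R₀ hR₀ x hx1 hx2 M hM Jm hJm
  rw [← hK] at hJm
  rw [hJm]
  obtain ⟨t1, t2, t3⟩ := hthr R₀ hR₀
  have hR2 : (2 : ℝ) ≤ R₀ := hR₁.trans hR₀
  have hR1 : 1 ≤ R₀ := by linarith
  have hR0 : (0 : ℝ) < R₀ := by linarith
  have hRe1 : 1 < R₀ ^ ε := one_lt_rpow (by linarith) hε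
  have hx : 1 < x := lt_of_lt_of_le hRe1 hx1
  have hx0 : 0 < x := by linarith
  have hlogR : 0 < Real.log R₀ := Real.log_pos (by linarith)
  have hlogx : 0 < Real.log x := Real.log_pos hx
  have h2 : 2 ≤ x ^ u := t1.trans (rpow_le_rpow (by linarith) hx1 hu0.le)
  have hxR : x ≤ R₀ := by
    refine hx2.trans ?_
    calc R₀ ^ (1 / 2 + 1 / 400000 : ℝ) ≤ R₀ ^ (1:ℝ) :=
          Real.rpow_le_rpow_of_exponent_le (by linarith) (by norm_num)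
      _ = R₀ := Real.rpow_one _
  obtain ⟨r, hr⟩ : ∃ r : ℝ, r = Real.log R₀ / Real.log x := ⟨_, rfl⟩
  have hRx : x ^ r = R₀ := by
    rw [hr, rpow_def_of_pos hx0, mul_div_cancel₀ _ hlogx.ne', exp_log hR0]
  have hr1 : r ≤ 1 / ε := by
    rw [hr, div_le_div_iff₀ hlogx hε, one_mul]
    have := Real.log_le_log (by positivity) hx1
    rw [Real.log_rpow hR0] at this
    linarith
  have hr2 : 2 - 1 / 100000 ≤ r := by
    rw [hr, le_div_iff₀ hlogx]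
    have := Real.log_le_log hx0 hx2
    rw [Real.log_rpow hR0] at this
    calc (2 - 1 / 100000) * Real.log x ≤ (2 - 1 / 100000) * ((1 / 2 + 1 / 400000) * Real.log R₀) :=
          mul_le_mul_of_nonneg_left this (by norm_num)
      _ ≤ 1 * Real.log R₀ := by
          rw [← mul_assoc]
          exact mul_le_mul_of_nonneg_right (by norm_num) hlogR.le
      _ = Real.log R₀ := one_mul _
  have hfp := flo54 hx0 h2 hM m
  have hmu' : (m : ℝ) * u ≤ 1 := by rw [hmu, hδ]; norm_num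
  refine ⟨by omega, ?_, ?_, ?_⟩
  · have h := hfp.2.1
    rwa [hmu] at h
  · have hD := Dc54 (m := m) (t := m) hx.le h2 hM le_rfl hmu'
    rw [hmu, ← hc₁] at hD
    have hxe : C' ≤ x ^ (δ - g) := t2.trans (rpow_le_rpow (by linarith) hx1 hδg.le)
    calc 2 * (8 * (4 * (K : ℝ)) ^ m * Dc x M m) * 20
        ≤ 2 * (8 * (4 * (K : ℝ)) ^ m * (c₁ * x ^ (2 - (1 / 2 + δ)))) * 20 := by
          refine mul_le_mul_of_nonneg_right (mul_le_mul_of_nonneg_left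
            (mul_le_mul_of_nonneg_left hD (by positivity)) (by norm_num)) (by norm_num)
      _ = C' * x ^ (2 - (1 / 2 + δ)) := by rw [hC']; ring
      _ ≤ x ^ (δ - g) * x ^ (2 - (1 / 2 + δ)) := mul_le_mul_of_nonneg_right hxe (by positivity)
      _ = x ^ (3 / 2 - g) := by
          rw [← Real.rpow_add hx0]
          congr 1
          ring
  · intro s hs
    obtain ⟨d, hd⟩ : ∃ d : ℝ, d = ((s : ℝ) + 1) * u := ⟨_, rfl⟩
    have hd0 : 0 < d := by rw [hd]; positivity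
    have hs1 : (s : ℝ) + 1 ≤ m := by exact_mod_cast hs
    have hd1 : d ≤ 1 / 2 + 1 / 100000 := by
      calc d = ((s : ℝ) + 1) * u := hd
        _ ≤ m * u := mul_le_mul_of_nonneg_right hs1 hu0.le
        _ = 1 / 2 + 1 / 100000 := by rw [hmu, hδ]
    obtain ⟨J, hJ3, hJ6, hch⟩ := Pool.Agent.Helper78.AO.choose_J3 hr2 hd0 hd1
    have hJK : J ≤ K := by
      have h1 : (J : ℝ) ≤ 1 / ε + 6 := by linarith
      have h2 : J ≤ ⌊1 / ε + (6:ℕ)⌋₊ := Nat.le_floor (by push_cast; exact h1)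
      rwa [Nat.floor_add_natCast (by positivity), ← hK] at h2
    have hJ1 : 1 ≤ J := by omega
    have hJr : (1 : ℝ) ≤ J := by exact_mod_cast hJ1
    have hJJ : (J : ℝ) ≤ K := by exact_mod_cast hJK
    have hP0 := PJ_zero54 hJ1 r d
    have hfJ : Pool.Agent.Helper78.AO.fJ J r d = J * (1 + d) - (r + 3 - 2 * d) - PJ J r d 0 := by
      rw [hP0]
      rfl
    -- the small terms
    have q1 : (J : ℝ) ^ 2 * u ≤ 1 / 1400000 := by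
      calc (J : ℝ) ^ 2 * u ≤ (K : ℝ) ^ 2 * u := by gcongr
        _ ≤ _ := huK1
    have q2 : (J : ℝ) * u ≤ 1 / 1400000 := by
      calc (J : ℝ) * u ≤ (J : ℝ) ^ 2 * u := by
            refine mul_le_mul_of_nonneg_right ?_ hu0.le
            nlinarith
        _ ≤ _ := q1
    have q3 : u ≤ 1 / 1400000 := by
      calc u ≤ (J : ℝ) * u := le_mul_of_one_le_left hu0.le hJr
        _ ≤ _ := q2
    have q4 : (J : ℝ) * g ≤ 1 / 200000 := by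
      calc (J : ℝ) * g ≤ K * g := mul_le_mul_of_nonneg_right hJJ hg0.le
        _ = _ := hgK
    have q5 : 2 * (J : ℝ) * e3 / ε ≤ 1 / 100000 := by
      have h1 : 2 * (J : ℝ) * e3 / ε = 2 * (J * (e3 / ε)) := by ring
      have h3 : (J : ℝ) * (e3 / ε) ≤ K * (e3 / ε) := mul_le_mul_of_nonneg_right hJJ (by positivity)
      rw [h1]
      rw [heK] at h3
      linarith
    have q6 : 2 * (J : ℝ) * g ≤ 1 / 100000 := by
      have h1 : 2 * (J : ℝ) * g = 2 * (J * g) := by ring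
      rw [h1]
      linarith
    have q7 : 8 * (J : ℝ) ^ 2 * u ≤ 8 / 1400000 := by
      have h1 : 8 * (J : ℝ) ^ 2 * u = 8 * ((J : ℝ) ^ 2 * u) := by ring
      rw [h1]
      linarith
    have q8 : 3 * (J : ℝ) * u ≤ 3 / 1400000 := by
      have h1 : 3 * (J : ℝ) * u = 3 * ((J : ℝ) * u) := by ring
      rw [h1]
      linarith
    have hδ' : δ = 1 / 100000 := hδ
    have hd1' : d ≤ 1 := by linarith
    rcases hch with hA | ⟨hd3, hB1, hB2⟩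
    · rw [hfJ] at hA
      refine ⟨J, hJ3, hJK, 1, le_rfl, ?_⟩
      have h := fin54 (m := m) (s := s) (J := J) (Jm := K) (M := M) (x := x) (u := u) (r := r) (d := d) (g := g) (δ := δ) (e3 := e3)
        (ε := ε) (R₀ := R₀) (l := 0) (Cg := Cg) hJ1 hJK hs hx.le hR1 hu0 hε he30 hRx hxR hx1 h2 hM hd hd1' hCg le_rfl
        (by rw [← hc₁]; exact t3) rfl (by linarith) (by linarith)
      rw [rpow_zero, ← hCt] at h
      refine h.trans (mul_le_mul_of_nonneg_right (by linarith) (by positivity))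
    · rw [hfJ] at hB1 hB2
      have hgain := PJ_gain54 (J := J) r d (1 / 16)
      refine ⟨J, hJ3, hJK, x ^ (1 / 16 : ℝ), one_le_rpow hx.le (by norm_num), ?_⟩
      have h := fin54 (m := m) (s := s) (J := J) (Jm := K) (M := M) (x := x) (u := u) (r := r) (d := d) (g := g) (δ := δ) (e3 := e3)
        (ε := ε) (R₀ := R₀) (l := 1 / 16) (Cg := Cg) hJ1 hJK hs hx.le hR1 hu0 hε he30 hRx hxR hx1 h2 hM hd hd1' hCg (by norm_num)
        (by rw [← hc₁]; exact t3) rfl (by linarith) (by linarith)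
      rw [← hCt] at h
      refine h.trans (mul_le_mul_of_nonneg_right (by linarith) (by positivity))

end Pool.Agent.Helper54.AO
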