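import Pool.Agent.Helper99.EY.Trunc2
import Pool.Agent.Helper92.AO.F

/-!
# AO: from the closed condition `HiG` (blocks `T p < n ≤ (1/2 + e) p`, eventually in `p`) to the hypothesis `SBh` of the truncated formula
-/

open MeasureTheory Real Set Filter Topology

set_option autoImplicit false

namespace Pool.Agent.Helper54.AO

open Pool.Agent.Helper22.AE (ee rho IsSupp ft)
open Pool.Agent.Helper92.GC (dt sqa)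
open Pool.Agent.Helper22.OV (shf)
open Pool.Agent.Helper92.AO (HiG)
open Pool.Agent.Helper99.EY (SBh)

/-- the blocks between `T p` and `(1/2 + e) p` -/
def hiN (T : ℕ → ℕ) (e : ℝ) (p : ℕ) : Set ℕ := {n | T p < n ∧ (n : ℝ) ≤ (1 / 2 + e) * p}

theorem sbh_of_hig {T : ℕ → ℕ} {e : ℝ} {H : ℝ → ℝ}
    (h : ∀ᶠ p : ℕ in atTop, HiG (hiN T e p) ((2 : ℝ) ^ p / 2) (4 * 2 ^ p) (fun n => sqrt (2 ^ p) / ((n : ℝ) + 1) ^ 2) H) :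
    SBh T e H := by
  obtain ⟨p₀, hp₀⟩ := eventually_atTop.1 h
  intro v hv
  refine ⟨1, p₀, fun p hp n hn1 hn2 R hR c => ?_⟩
  have h1 := hp₀ p hp v hv n ⟨hn1, hn2⟩ R hR c
  have h2 : sqrt (2 ^ p) / ((n : ℝ) + 1) ^ 2 ≤ 1 * (sqrt (2 ^ p) / ((n : ℝ) + 1) ^ 2 + 1) := by linarith
  exact h1.trans h2

/-- the same from the unfolded form -/
theorem sbh_of_ev {T : ℕ → ℕ} {e : ℝ} {H : ℝ → ℝ}
    (h : ∀ᶠ p : ℕ in atTop, ∀ v : ℝ × ℝ, IsSupp (shf H v) → ∀ n : ℕ, T p < n → (n : ℝ) ≤ (1 / 2 + e) * p →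
      ∀ R ∈ Icc ((2 : ℝ) ^ p / 2) (4 * 2 ^ p), ∀ c : ℝ × ℝ,
        ‖∑ k ∈ sqa (2 ^ n), ft (fun t => R * shf H v t) k * ee (dt k c)‖ ≤ sqrt (2 ^ p) / ((n : ℝ) + 1) ^ 2) :
    SBh T e H :=
  sbh_of_hig (h.mono fun _ hp v hv n hn => hp v hv n hn.1 hn.2)

theorem hig_iff {T : ℕ → ℕ} {e : ℝ} {H : ℝ → ℝ} (p : ℕ) :
    HiG (hiN T e p) ((2 : ℝ) ^ p / 2) (4 * 2 ^ p) (fun n => sqrt (2 ^ p) / ((n : ℝ) + 1) ^ 2) H ↔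
      ∀ v : ℝ × ℝ, IsSupp (shf H v) → ∀ n : ℕ, T p < n → (n : ℝ) ≤ (1 / 2 + e) * p →
      ∀ R ∈ Icc ((2 : ℝ) ^ p / 2) (4 * 2 ^ p), ∀ c : ℝ × ℝ,
        ‖∑ k ∈ sqa (2 ^ n), ft (fun t => R * shf H v t) k * ee (dt k c)‖ ≤ sqrt (2 ^ p) / ((n : ℝ) + 1) ^ 2 :=
  ⟨fun h v hv n h1 h2 => h v hv n ⟨h1, h2⟩, fun h v hv n hn => h v hv n hn.1 hn.2⟩

/-- a smaller threshold `e` is enough -/
theorem sbh_mono {T : ℕ → ℕ} {e e' : ℝ} {H : ℝ → ℝ} (he : e' ≤ e) (h : SBh T e H) : SBh T e' H := by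
  intro v hv
  obtain ⟨C, p₀, hC⟩ := h v hv
  refine ⟨C, p₀, fun p hp n hn1 hn2 R hR c => hC p hp n hn1 (hn2.trans ?_) R hR c⟩
  gcongr

end Pool.Agent.Helper54.AO
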