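import Mathlib

/-!
# AO-H1: power sums determine nodes and weights

Nodes in the closed unit disc (or in `[-1,1]`), separated by `τ`; `2J` power sums.
-/

open Finset

set_option autoImplicit false

namespace Pool.Agent.Helper54.AO

/-- the moment bound for products -/
theorem mom_prod54 {J : ℕ} {η : ℝ} (r r' : Fin J → ℝ) (z z' : Fin J → ℂ)
    (hz : ∀ i, ‖z i‖ ≤ 1) (hz' : ∀ i, ‖z' i‖ ≤ 1)
    (hM : ∀ l < 2 * J, ‖∑ i, ((r i : ℂ) * z i ^ l - (r' i : ℂ) * z' i ^ l)‖ ≤ η) (S : Finset (Fin J)) :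
    ∀ a : ℕ, a + 2 * S.card < 2 * J →
      ‖∑ m, ((r m : ℂ) * z m ^ a * ∏ j ∈ S, ((z m - z j) * (z m - z' j)) -
        (r' m : ℂ) * z' m ^ a * ∏ j ∈ S, ((z' m - z j) * (z' m - z' j)))‖ ≤ 4 ^ S.card * η := by
  induction S using Finset.induction_on with
  | empty =>
    intro a ha
    have := hM a (by simpa using ha)
    simpa using this
  | insert j S hj ih =>
    intro a ha
    rw [Finset.card_insert_of_notMem hj] at ha ⊢
    set f : ℕ → ℂ := fun a => ∑ m, ((r m : ℂ) * z m ^ a * ∏ j ∈ S, ((z m - z j) * (z m - z' j)) -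
        (r' m : ℂ) * z' m ^ a * ∏ j ∈ S, ((z' m - z j) * (z' m - z' j))) with hf
    have h0 : ‖f a‖ ≤ 4 ^ S.card * η := ih a (by omega)
    have h1 : ‖f (a + 1)‖ ≤ 4 ^ S.card * η := ih (a + 1) (by omega)
    have h2 : ‖f (a + 2)‖ ≤ 4 ^ S.card * η := ih (a + 2) (by omega)
    have e : ∑ m, ((r m : ℂ) * z m ^ a * ∏ k ∈ insert j S, ((z m - z k) * (z m - z' k)) -
        (r' m : ℂ) * z' m ^ a * ∏ k ∈ insert j S, ((z' m - z k) * (z' m - z' k))) =
        f (a + 2) - (z j + z' j) * f (a + 1) + z j * z' j * f a := by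
      simp only [hf]
      rw [Finset.mul_sum, Finset.mul_sum, ← Finset.sum_sub_distrib, ← Finset.sum_add_distrib]
      refine Finset.sum_congr rfl fun m _ => ?_
      rw [Finset.prod_insert hj, Finset.prod_insert hj, pow_succ, pow_succ, pow_succ]
      ring
    rw [e]
    have hη' : 0 ≤ 4 ^ S.card * η := (norm_nonneg _).trans h0
    have hs : ‖z j + z' j‖ ≤ 2 := by
      calc ‖z j + z' j‖ ≤ ‖z j‖ + ‖z' j‖ := norm_add_le _ _
        _ ≤ 1 + 1 := add_le_add (hz j) (hz' j)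
        _ = 2 := by norm_num
    have hp : ‖z j * z' j‖ ≤ 1 := by
      rw [norm_mul]
      exact mul_le_one₀ (hz j) (norm_nonneg _) (hz' j)
    calc ‖f (a + 2) - (z j + z' j) * f (a + 1) + z j * z' j * f a‖
        ≤ ‖f (a + 2) - (z j + z' j) * f (a + 1)‖ + ‖z j * z' j * f a‖ := norm_add_le _ _
      _ ≤ (‖f (a + 2)‖ + ‖(z j + z' j) * f (a + 1)‖) + ‖z j * z' j * f a‖ := by
          gcongr
          exact norm_sub_le _ _
      _ = (‖f (a + 2)‖ + ‖z j + z' j‖ * ‖f (a + 1)‖) + ‖z j * z' j‖ * ‖f a‖ := by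
          rw [norm_mul, norm_mul (z j * z' j)]
      _ ≤ (4 ^ S.card * η + 2 * (4 ^ S.card * η)) + 1 * (4 ^ S.card * η) := by
          gcongr
      _ = 4 ^ (S.card + 1) * η := by rw [pow_succ]; ring

/-- the product is Lipschitz on the disc -/
theorem prod_lip54 {ι : Type} (S : Finset ι) (a b : ι → ℂ) (ha : ∀ j, ‖a j‖ ≤ 1) (hb : ∀ j, ‖b j‖ ≤ 1)
    {x y : ℂ} (hx : ‖x‖ ≤ 1) (hy : ‖y‖ ≤ 1) :
    ‖∏ j ∈ S, ((x - a j) * (x - b j))‖ ≤ 4 ^ S.card ∧
      ‖∏ j ∈ S, ((x - a j) * (x - b j)) - ∏ j ∈ S, ((y - a j) * (y - b j))‖ ≤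
        S.card * 4 ^ S.card * ‖x - y‖ := by
  classical
  induction S using Finset.induction_on with
  | empty => simp
  | insert j S hj ih =>
    obtain ⟨ih1, ih2⟩ := ih
    have hfac : ∀ u : ℂ, ‖u‖ ≤ 1 → ‖(u - a j) * (u - b j)‖ ≤ 4 := by
      intro u hu
      rw [norm_mul]
      have h1 : ‖u - a j‖ ≤ 2 := (norm_sub_le _ _).trans (by linarith [ha j])
      have h2 : ‖u - b j‖ ≤ 2 := (norm_sub_le _ _).trans (by linarith [hb j])
      calc ‖u - a j‖ * ‖u - b j‖ ≤ 2 * 2 := mul_le_mul h1 h2 (norm_nonneg _) (by norm_num)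
        _ = 4 := by norm_num
    have hall : ∀ u : ℂ, ‖u‖ ≤ 1 → ‖∏ i ∈ S, ((u - a i) * (u - b i))‖ ≤ 4 ^ S.card := by
      intro u hu
      rw [norm_prod]
      calc ∏ i ∈ S, ‖(u - a i) * (u - b i)‖ ≤ ∏ _i ∈ S, (4 : ℝ) := by
            refine Finset.prod_le_prod (fun _ _ => norm_nonneg _) (fun i _ => ?_)
            rw [norm_mul]
            have h1 : ‖u - a i‖ ≤ 2 := (norm_sub_le _ _).trans (by linarith [ha i])
            have h2 : ‖u - b i‖ ≤ 2 := (norm_sub_le _ _).trans (by linarith [hb i])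
            calc ‖u - a i‖ * ‖u - b i‖ ≤ 2 * 2 := mul_le_mul h1 h2 (norm_nonneg _) (by norm_num)
              _ = 4 := by norm_num
        _ = 4 ^ S.card := by rw [Finset.prod_const]
    rw [Finset.card_insert_of_notMem hj, Finset.prod_insert hj, Finset.prod_insert hj]
    have hd : ‖(x - a j) * (x - b j) - (y - a j) * (y - b j)‖ ≤ 4 * ‖x - y‖ := by
      have e : (x - a j) * (x - b j) - (y - a j) * (y - b j) = (x + y - a j - b j) * (x - y) := by ring
      rw [e, norm_mul]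
      refine mul_le_mul_of_nonneg_right ?_ (norm_nonneg _)
      calc ‖x + y - a j - b j‖ ≤ ‖x + y - a j‖ + ‖b j‖ := norm_sub_le _ _
        _ ≤ (‖x + y‖ + ‖a j‖) + ‖b j‖ := by gcongr; exact norm_sub_le _ _
        _ ≤ ((‖x‖ + ‖y‖) + ‖a j‖) + ‖b j‖ := by gcongr; exact norm_add_le _ _
        _ ≤ 4 := by linarith [ha j, hb j]
    constructor
    · rw [norm_mul, pow_succ, mul_comm ((4 : ℝ) ^ S.card)]
      exact mul_le_mul (hfac x hx) (hall x hx) (norm_nonneg _) (by norm_num)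
    · have e : (x - a j) * (x - b j) * ∏ i ∈ S, ((x - a i) * (x - b i)) -
          (y - a j) * (y - b j) * ∏ i ∈ S, ((y - a i) * (y - b i)) =
          (x - a j) * (x - b j) * (∏ i ∈ S, ((x - a i) * (x - b i)) - ∏ i ∈ S, ((y - a i) * (y - b i))) +
          ((x - a j) * (x - b j) - (y - a j) * (y - b j)) * ∏ i ∈ S, ((y - a i) * (y - b i)) := by ring
      rw [e]
      refine (norm_add_le _ _).trans ?_
      rw [norm_mul ((x - a j) * (x - b j)), norm_mul ((x - a j) * (x - b j) - _)]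
      calc ‖(x - a j) * (x - b j)‖ * ‖∏ i ∈ S, ((x - a i) * (x - b i)) - ∏ i ∈ S, ((y - a i) * (y - b i))‖ +
            ‖(x - a j) * (x - b j) - (y - a j) * (y - b j)‖ * ‖∏ i ∈ S, ((y - a i) * (y - b i))‖
          ≤ 4 * (S.card * 4 ^ S.card * ‖x - y‖) + (4 * ‖x - y‖) * 4 ^ S.card := by
            have h1 := hfac x hx
            have h2 := hall y hy
            have h3 : 0 ≤ 4 * ‖x - y‖ := by positivity
            exact add_le_add (mul_le_mul h1 ih2 (norm_nonneg _) (by norm_num))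
              (mul_le_mul hd h2 (norm_nonneg _) h3)
        _ = _ := by
            push_cast
            rw [pow_succ]
            ring

/-- H1: nodes and weights -/
theorem nodes_weights {J : ℕ} (hJ : 1 ≤ J) {K A τ : ℝ} (hK : 0 < K) (hA : 0 ≤ A) (hτ : 0 < τ) (hτ1 : τ ≤ 1)
    (r r' : Fin J → ℝ) (z z' : Fin J → ℂ) (hz : ∀ i, ‖z i‖ ≤ 1) (hz' : ∀ i, ‖z' i‖ ≤ 1)
    (hr : ∀ i, K ≤ r i) (hr' : ∀ i, 0 ≤ r' i ∧ r' i ≤ 2 * K)
    (hs : ∀ i j, i ≠ j → τ ≤ ‖z i - z j‖ ∧ τ ≤ ‖z i - z' j‖)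
    (hM : ∀ l < 2 * J, ‖∑ i, ((r i : ℂ) * z i ^ l - (r' i : ℂ) * z' i ^ l)‖ ≤ A)
    (i : Fin J) : ‖z i - z' i‖ ≤ 2 * 4 ^ J * A / (K * τ ^ (2 * J - 2)) ∧
      |r i - r' i| ≤ 2 * J * 16 ^ J * A / τ ^ (4 * J - 4) := by
  set S : Finset (Fin J) := Finset.univ.erase i with hS
  have hcard : S.card = J - 1 := by
    rw [hS, Finset.card_erase_of_mem (Finset.mem_univ i), Finset.card_univ, Fintype.card_fin]
  set p : ℂ → ℂ := fun x => ∏ j ∈ S, ((x - z j) * (x - z' j)) with hp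
  have hzero : ∀ m, m ≠ i → p (z m) = 0 ∧ p (z' m) = 0 := by
    intro m hm
    have hmS : m ∈ S := Finset.mem_erase.2 ⟨hm, Finset.mem_univ m⟩
    exact ⟨Finset.prod_eq_zero hmS (by simp), Finset.prod_eq_zero hmS (by simp)⟩
  have hmom : ∀ a, a ≤ 1 → ‖(r i : ℂ) * z i ^ a * p (z i) - (r' i : ℂ) * z' i ^ a * p (z' i)‖ ≤
      4 ^ (J - 1) * A := by
    intro a ha
    have h := mom_prod54 r r' z z' hz hz' hM S a (by rw [hcard]; omega)
    rw [hcard] at h
    have e : ∑ m, ((r m : ℂ) * z m ^ a * ∏ j ∈ S, ((z m - z j) * (z m - z' j)) -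
        (r' m : ℂ) * z' m ^ a * ∏ j ∈ S, ((z' m - z j) * (z' m - z' j))) =
        (r i : ℂ) * z i ^ a * p (z i) - (r' i : ℂ) * z' i ^ a * p (z' i) := by
      rw [Finset.sum_eq_single i]
      · intro m _ hm
        have := hzero m hm
        have h1 : ∏ j ∈ S, ((z m - z j) * (z m - z' j)) = 0 := this.1
        have h2 : ∏ j ∈ S, ((z' m - z j) * (z' m - z' j)) = 0 := this.2
        rw [h1, h2]; simp
      · intro h0; exact absurd (Finset.mem_univ i) h0
    rwa [e] at h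
  set P : ℝ := 4 ^ (J - 1) with hP
  have hP4 : (4 : ℝ) ^ J = 4 * P := by
    rw [hP, ← pow_succ']
    congr 1
    omega
  have hPpos : 0 < P := by positivity
  have hP1 : 1 ≤ P := one_le_pow₀ (by norm_num)
  have hJ1 : (1 : ℝ) ≤ J := by exact_mod_cast hJ
  set B : ℂ := (r i : ℂ) * p (z i) with hB
  set B' : ℂ := (r' i : ℂ) * p (z' i) with hB'
  have h0 : ‖B - B'‖ ≤ P * A := by
    have := hmom 0 (by norm_num)
    simpa using this
  have h1 : ‖z i * B - z' i * B'‖ ≤ P * A := by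
    have := hmom 1 le_rfl
    have e : (r i : ℂ) * z i ^ 1 * p (z i) - (r' i : ℂ) * z' i ^ 1 * p (z' i) =
        z i * B - z' i * B' := by rw [hB, hB']; ring
    rwa [e] at this
  set Q : ℝ := ‖p (z i)‖ with hQ
  set d : ℝ := ‖z i - z' i‖ with hd
  have hd0 : 0 ≤ d := norm_nonneg _
  have hBn : ‖B‖ = r i * Q := by
    rw [hB, norm_mul, Complex.norm_real, Real.norm_of_nonneg (hK.le.trans (hr i))]
  have hPA : 0 ≤ P * A := by positivity
  have h2 : K * Q * d ≤ 2 * (P * A) := by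
    have e : (z i - z' i) * B = (z i * B - z' i * B') - z' i * (B - B') := by ring
    have h3 : ‖(z i - z' i) * B‖ ≤ P * A + P * A := by
      rw [e]
      refine (norm_sub_le _ _).trans (add_le_add h1 ?_)
      rw [norm_mul]
      calc ‖z' i‖ * ‖B - B'‖ ≤ 1 * (P * A) := mul_le_mul (hz' i) h0 (norm_nonneg _) zero_le_one
        _ = P * A := one_mul _
    rw [norm_mul, hBn] at h3
    have hQ0 : 0 ≤ Q := norm_nonneg _
    have h4 : K * Q * d ≤ d * (r i * Q) := by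
      have := mul_le_mul_of_nonneg_right (hr i) (mul_nonneg hQ0 hd0)
      nlinarith
    linarith
  have hQlow : τ ^ (2 * J - 2) ≤ Q := by
    rw [hQ, hp]
    simp only
    rw [norm_prod]
    have e : τ ^ (2 * J - 2) = ∏ j ∈ S, (τ * τ) := by
      rw [Finset.prod_const, hcard, ← pow_two, ← pow_mul]
      congr 1
      omega
    rw [e]
    refine Finset.prod_le_prod (fun j _ => by positivity) (fun j hj => ?_)
    have hij : i ≠ j := fun h => (Finset.mem_erase.1 hj).1 h.symm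
    rw [norm_mul]
    exact mul_le_mul (hs i j hij).1 (hs i j hij).2 hτ.le (norm_nonneg _)
  set T : ℝ := τ ^ (2 * J - 2) with hT
  have hTp : 0 < T := by positivity
  have hT1 : T ≤ 1 := pow_le_one₀ hτ.le hτ1
  have hTT : τ ^ (4 * J - 4) = T * T := by
    rw [hT, ← pow_add]
    congr 1
    omega
  have hQpos : 0 < Q := lt_of_lt_of_le hTp hQlow
  have hK2 : K * T * d ≤ 2 * (P * A) :=
    (mul_le_mul_of_nonneg_right (mul_le_mul_of_nonneg_left hQlow hK.le) hd0).trans h2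
  have hfst : d ≤ 2 * 4 ^ J * A / (K * T) := by
    rw [le_div_iff₀ (by positivity), hP4]
    nlinarith
  refine ⟨hfst, ?_⟩
  -- the weights
  have hlip := (prod_lip54 S z z' hz hz' (hz i) (hz' i)).2
  rw [hcard] at hlip
  have hcJ : ((J - 1 : ℕ) : ℝ) ≤ J := by exact_mod_cast Nat.sub_le J 1
  have hlip' : ‖p (z i) - p (z' i)‖ ≤ J * P * d := by
    refine hlip.trans ?_
    rw [← hP]
    gcongr
  have e2 : (((r i - r' i : ℝ)) : ℂ) * p (z i) = (B - B') - (r' i : ℂ) * (p (z i) - p (z' i)) := by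
    rw [hB, hB']
    push_cast
    ring
  have h5 : |r i - r' i| * Q ≤ P * A + 2 * K * (J * P * d) := by
    have h6 : ‖(((r i - r' i : ℝ)) : ℂ) * p (z i)‖ = |r i - r' i| * Q := by
      rw [norm_mul, Complex.norm_real, Real.norm_eq_abs]
    rw [← h6, e2]
    refine (norm_sub_le _ _).trans (add_le_add h0 ?_)
    rw [norm_mul, Complex.norm_real, Real.norm_of_nonneg (hr' i).1]
    exact mul_le_mul (hr' i).2 hlip' (norm_nonneg _) (by positivity)
  have h7 : K * d ≤ 2 * (P * A) / T := by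
    rw [le_div_iff₀ hTp]
    linarith
  have h8 : |r i - r' i| * T ≤ P * A + 2 * (J * P) * (2 * (P * A) / T) := by
    calc |r i - r' i| * T ≤ |r i - r' i| * Q := mul_le_mul_of_nonneg_left hQlow (abs_nonneg _)
      _ ≤ P * A + 2 * K * (J * P * d) := h5
      _ = P * A + 2 * (J * P) * (K * d) := by ring
      _ ≤ P * A + 2 * (J * P) * (2 * (P * A) / T) := by gcongr
  have h16 : (16 : ℝ) ^ J = 16 * (P * P) := by
    have : (16 : ℝ) ^ J = 4 ^ J * 4 ^ J := by rw [← mul_pow]; norm_num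
    rw [this, hP4]
    ring
  rw [hTT, h16, le_div_iff₀ (by positivity)]
  have h9 : |r i - r' i| * (T * T) ≤ P * A * T + 4 * (J * P) * (P * A) := by
    calc |r i - r' i| * (T * T) = (|r i - r' i| * T) * T := by ring
      _ ≤ (P * A + 2 * (J * P) * (2 * (P * A) / T)) * T := mul_le_mul_of_nonneg_right h8 hTp.le
      _ = P * A * T + 4 * (J * P) * (P * A) := by field_simp; ring
  have h10 : P * A * T ≤ (J * P) * (P * A) := by
    calc P * A * T ≤ P * A * 1 := mul_le_mul_of_nonneg_left hT1 hPA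
      _ = 1 * (P * A) := by ring
      _ ≤ (J * P) * (P * A) := mul_le_mul_of_nonneg_right (one_le_mul_of_one_le_of_one_le hJ1 hP1) hPA
  have h11 : 0 ≤ (J * P) * (P * A) := by positivity
  calc |r i - r' i| * (T * T) ≤ 5 * ((J * P) * (P * A)) := by linarith
    _ ≤ 32 * ((J * P) * (P * A)) := by linarith
    _ = 2 * J * (16 * (P * P)) * A := by ring

/-- H1 for real nodes (the form used in the high part) -/
theorem sep_real {J : ℕ} (hJ : 1 ≤ J) {K A τ : ℝ} (hK : 0 < K) (hA : 0 ≤ A) (hτ : 0 < τ) (hτ1 : τ ≤ 1)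
    (r r' t t' : Fin J → ℝ) (ht : ∀ i, |t i| ≤ 1) (ht' : ∀ i, |t' i| ≤ 1)
    (hr : ∀ i, K ≤ r i ∧ r i ≤ 2 * K) (hr' : ∀ i, K ≤ r' i ∧ r' i ≤ 2 * K)
    (hs : ∀ i j, i ≠ j → τ ≤ |t i - t j| ∧ τ ≤ |t i - t' j| ∧ τ ≤ |t' i - t j| ∧ τ ≤ |t' i - t' j|)
    (hM : ∀ m < 2 * J, |∑ i, (r i * t i ^ m - r' i * t' i ^ m)| ≤ A) (i : Fin J) :
    |t i - t' i| ≤ 2 * 4 ^ J * A / (K * τ ^ (2 * J - 2)) ∧ |r i - r' i| ≤ 5 * J * 16 ^ J * A / τ ^ (4 * J - 4) := by
  have hnorm : ∀ x y : ℝ, ‖(x : ℂ) - (y : ℂ)‖ = |x - y| := fun x y => by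
    rw [← Complex.ofReal_sub, Complex.norm_real, Real.norm_eq_abs]
  have h := nodes_weights hJ hK hA hτ hτ1 r r' (fun i => (t i : ℂ)) (fun i => (t' i : ℂ))
    (fun i => by rw [Complex.norm_real, Real.norm_eq_abs]; exact ht i)
    (fun i => by rw [Complex.norm_real, Real.norm_eq_abs]; exact ht' i)
    (fun i => (hr i).1) (fun i => ⟨hK.le.trans (hr' i).1, (hr' i).2⟩)
    (fun i j hij => by
      rw [hnorm, hnorm]
      exact ⟨(hs i j hij).1, (hs i j hij).2.1⟩)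
    (fun l hl => by
      have e : ∑ i, ((r i : ℂ) * (t i : ℂ) ^ l - (r' i : ℂ) * (t' i : ℂ) ^ l) =
          ((∑ i, (r i * t i ^ l - r' i * t' i ^ l) : ℝ) : ℂ) := by push_cast; rfl
      rw [e, Complex.norm_real, Real.norm_eq_abs]
      exact hM l hl) i
  simp only [hnorm] at h
  refine ⟨h.1, h.2.trans ?_⟩
  have h1 : 0 < τ ^ (4 * J - 4) := by positivity
  refine div_le_div_of_nonneg_right ?_ h1.le
  have h2 : 0 ≤ (J : ℝ) * 16 ^ J * A := by positivity
  nlinarith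

end Pool.Agent.Helper54.AO
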